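import Pool.Agent.Q174.AF.Cor

/-!
# 2-level polytopes whose vertex set is closed under intersection

Let `P` be a `d`-dimensional 2-level polytope with vertices in `{0,1}^d`, and suppose that the vertex
set is closed under intersection (coordinatewise minimum), or under union, or more generally under
`(v, w) ↦ median(p, v, w)` for one fixed point `p ∈ {0,1}^d`. Then the facet-vertex incidence matrix
has a deterministic protocol with `1620 ⌈log₂ (d+3)⌉^6 + 1` bits.

The rows of the slack matrix are 0/1-valued affine functions on the family of vertices, and the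
log-rank theorem for sparse Boolean functions on semilattices applies.
-/

set_option autoImplicit false

namespace Pool.Agent.Results.MP_663fff_lc.MedianClosedVertices

open Finset Pool.Agent.Q174.TD Pool.Agent.Q174.AF

/-- any set of columns -/
lemma feat_prot_any {X Y : Type*} [Finite X] {n : ℕ} (e : X → Fin n → Bool)
    (he : ∀ x x', ∃ x'', ∀ i, e x'' i = (e x i && e x' i))
    (F : X → Y → Bool) (hF : ∀ y, ∃ (c : ℝ) (w : Fin n → ℝ), ∀ x,
      (if F x y then (1 : ℝ) else 0) = c + ∑ i, if e x i then w i else 0) :
    Prot F (1620 * (Nat.clog 2 (n + 3)) ^ 6 + 1) Set.univ Set.univ := by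
  classical
  haveI := Fintype.ofFinite X
  let Y' := {h : X → Bool // ∃ y, h = fun x => F x y}
  haveI : Fintype Y' := Fintype.ofFinite Y'
  have h1 := feat_prot e he (fun (x : X) (h : Y') => h.1 x) (by
    rintro ⟨_, y, rfl⟩
    exact hF y)
  exact prot_comap (F := F) (F' := fun (x : X) (h : Y') => h.1 x) id
    (fun y => ⟨fun x => F x y, y, rfl⟩) (fun x y => rfl) h1

/-- `F` has a deterministic two-party protocol with exactly `c` bits: `t` is the transcript so far,
`owner t` says who speaks, the bit sent depends on the transcript and on the input of the speaker,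
and the answer is a function of the transcript. -/
def HasProtocol {X Y : Type} (F : X → Y → Bool) (c : ℕ) : Prop :=
  ∃ (owner : List Bool → Bool) (a : List Bool → X → Bool)
      (b : List Bool → Y → Bool) (out : List Bool → Bool),
      ∀ x y, out (Nat.iterate
        (fun t : List Bool => t ++ [if owner t then a t x else b t y]) c []) = F x y

/-- the linear functional `p.1` and the number `p.2` define a facet of the polytope with vertex set
`V` (the polytope has dimension `d`) -/
def IsFacet {d : ℕ} (V : Finset (EuclideanSpace ℝ (Fin d)))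
    (p : (EuclideanSpace ℝ (Fin d) →ₗ[ℝ] ℝ) × ℝ) : Prop :=
  (∀ v ∈ V, p.1 v ≤ p.2) ∧
    Module.finrank ℝ (affineSpan ℝ {v : EuclideanSpace ℝ (Fin d) | v ∈ V ∧ p.1 v = p.2}).direction
      = d - 1

/-- 2-level: the vertices lie on the facet or on one parallel hyperplane -/
def TwoLevel {d : ℕ} (V : Finset (EuclideanSpace ℝ (Fin d))) : Prop :=
  ∀ p, IsFacet V p → ∃ b' : ℝ, ∀ v ∈ V, p.1 v = p.2 ∨ p.1 v = b'

/-- the facet-vertex incidence matrix -/
noncomputable def incidence {d : ℕ} (V : Finset (EuclideanSpace ℝ (Fin d))) :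
    {p // IsFacet V p} → V → Bool := by
  classical exact fun p v => decide (p.1.1 v.1 = p.1.2)

/-- the vertices are 0/1 points, and the vertex set is closed under `(v, w) ↦ median(p, v, w)` for
one point `p` with coordinates `0` and `1`: the point `u` differs from `p` exactly where `v` and `w`
differ from `p` -/
def MedianClosed {d : ℕ} (V : Finset (EuclideanSpace ℝ (Fin d))) : Prop :=
  (∀ v ∈ V, ∀ i, v i = 0 ∨ v i = 1) ∧
  ∃ p : Fin d → ℝ, (∀ i, p i = 0 ∨ p i = 1) ∧
    ∀ v ∈ V, ∀ w ∈ V, ∃ u ∈ V, ∀ i, (u i ≠ p i ↔ v i ≠ p i ∧ w i ≠ p i)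

lemma hasProtocol_of {X Y : Type} {F : X → Y → Bool} {c : ℕ}
    (h : Prot F c Set.univ Set.univ) : HasProtocol F c := by
  obtain ⟨owner, a, b, out, h⟩ := h.protocol
  exact ⟨owner, a, b, out, fun x y => h x (Set.mem_univ _) y (Set.mem_univ _)⟩

lemma prot_swap {X Y : Type*} {F : X → Y → Bool} {c : ℕ} {A : Set X} {B : Set Y}
    (h : Prot F c A B) : Prot (fun y x => F x y) c B A := by
  induction h with
  | const c A B b hb => exact Prot.const c _ _ b fun y hy x hx => hb x hx y hy
  | alice c A B S _ _ ih₁ ih₂ => exact Prot.bob c _ _ S ih₁ ih₂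
  | bob c A B S _ _ ih₁ ih₂ => exact Prot.alice c _ _ S ih₁ ih₂

theorem result : ∀ d : ℕ, 1 ≤ d → ∀ V : Finset (EuclideanSpace ℝ (Fin d)),
    affineSpan ℝ (V : Set (EuclideanSpace ℝ (Fin d))) = ⊤ → TwoLevel V → MedianClosed V →
    HasProtocol (incidence V) (1620 * (Nat.clog 2 (d + 3)) ^ 6 + 1) := by
  classical
  intro d _ V _ h2 hM
  obtain ⟨h01, p, hp01, hp⟩ := hM
  set e : V → Fin d → Bool := fun v i => decide (v.1 i ≠ p i) with he
  have hprot := feat_prot_any (X := V) (Y := {p // IsFacet V p}) e ?_
    (fun v y => incidence V y v) ?_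
  · exact hasProtocol_of (prot_swap hprot)
  · rintro ⟨v, hv⟩ ⟨w, hw⟩
    obtain ⟨u, hu, h⟩ := hp v hv w hw
    refine ⟨⟨u, hu⟩, fun i => ?_⟩
    simp only [he, ← Bool.decide_and]
    exact decide_eq_decide.mpr (h i)
  · rintro ⟨⟨f, b⟩, hf⟩
    obtain ⟨b', hb'⟩ := h2 (f, b) hf
    simp only at hb'
    have hinc : ∀ v : V, incidence V ⟨(f, b), hf⟩ v = decide (f v.1 = b) := by
      intro v
      unfold incidence
      exact decide_eq_decide.mpr Iff.rfl
    -- an affine expression for `f` in terms of `e`
    have hfe : ∀ v : V, f v.1 = ∑ i, p i * f (EuclideanSpace.single i 1) +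
        ∑ i, if e v i then (1 - 2 * p i) * f (EuclideanSpace.single i 1) else 0 := by
      intro v
      have h3 : v.1 = ∑ i, v.1 i • EuclideanSpace.single i (1 : ℝ) := by
        ext j
        simp [Finset.sum_apply, Pi.single_apply]
      conv_lhs => rw [h3, map_sum]
      rw [← Finset.sum_add_distrib]
      refine Finset.sum_congr rfl fun i _ => ?_
      rw [map_smul, smul_eq_mul]
      simp only [he, decide_eq_true_eq]
      rcases h01 v.1 v.2 i with h4 | h4 <;> rcases hp01 i with h5 | h5 <;> rw [h4, h5]
      · simp
      · simp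
        ring
      · simp
      · simp
    by_cases hbb : b' = b
    · refine ⟨1, 0, fun v => ?_⟩
      have : f v.1 = b := by
        rcases hb' v.1 v.2 with h | h
        · exact h
        · rw [h, hbb]
      rw [hinc]
      simp [this]
    · have hne : b - b' ≠ 0 := sub_ne_zero.mpr (Ne.symm hbb)
      refine ⟨(∑ i, p i * f (EuclideanSpace.single i 1) - b') / (b - b'),
        fun i => ((1 - 2 * p i) * f (EuclideanSpace.single i 1)) / (b - b'), fun v => ?_⟩
      have h3 : (if decide (f v.1 = b) = true then (1 : ℝ) else 0) = (f v.1 - b') / (b - b') := by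
        rcases hb' v.1 v.2 with h | h
        · rw [h]
          simp [div_self hne]
        · rw [h]
          simp [hbb]
      rw [hinc, h3, hfe v]
      have h4 : ∀ i, (if e v i = true then
          ((1 - 2 * p i) * f (EuclideanSpace.single i 1)) / (b - b') else 0) =
          (if e v i = true then (1 - 2 * p i) * f (EuclideanSpace.single i 1) else 0) /
            (b - b') := by
        intro i
        split_ifs
        · rfl
        · rw [zero_div]
      rw [Finset.sum_congr rfl fun i _ => h4 i, ← Finset.sum_div]
      ring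

end Pool.Agent.Results.MP_663fff_lc.MedianClosedVertices
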